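import Pool.Agent.H343.QF.StG

set_option autoImplicit false

/-! # MP_9a852a_al, G17-G19: algebra of matched pairs -/

namespace Pool.Agent.H30.QF.G17

open Pool.Agent.TH68 Pool.Agent.Helper97.Hyp Pool.Agent.H343.AN Pool.Agent.H343.QF

theorem algp (h : S_malalg) : S_algp := by
  intro Γ _ W a b δ D hG u v c l l' hc huv hm
  obtain ⟨q, hq⟩ := Subgroup.mem_zpowers_iff.1 huv
  have hv : v = u * a ^ q := by
    rw [hq]
    group
  have e : (u * a ^ l * c)⁻¹ * (v * a ^ l' * c) = c⁻¹ * a ^ (q + l' - l) * c := by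
    rw [hv]
    group
  rw [e] at hm
  have h0 : q + l' - l = 0 := by
    by_contra hne
    exact h hG c hc _ hne hm
  have h1 : a ^ q * a ^ l' = a ^ l := by
    rw [← zpow_add]
    congr 1
    omega
  rw [hv, ← h1]
  group

theorem algm : S_algm := by
  intro Γ _ W a b δ D hG u v κ κ' l l' h1 h2 h3 h4 hm1 hm2
  obtain ⟨t, ht⟩ := Subgroup.mem_zpowers_iff.1 hm1
  obtain ⟨q, hq⟩ := Subgroup.mem_zpowers_iff.1 hm2
  have hv : v = u * a ^ l * b ^ κ * a ^ q := by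
    rw [hq]
    group
  have e1 : a ^ t = a ^ l * b ^ κ * a ^ q * a ^ l' * b ^ κ' := by
    rw [ht, hv]
    group
  have e2 : a ^ (q + l') * b ^ κ' = (b ^ κ)⁻¹ * (a ^ l)⁻¹ * a ^ t := by
    rw [e1, zpow_add]
    group
  have e3 : b ^ (-(κ : ℤ)) = a ^ (q + l') * b ^ (κ' : ℤ) * a ^ (l - t) := by
    rw [zpow_natCast b κ', e2, zpow_sub]
    rw [zpow_neg, zpow_natCast]
    group
  refine hG.dc (-(κ : ℤ)) (κ' : ℤ) (q + l') (l - t) ?_ ?_ ?_ e3
  · rw [abs_neg, Nat.abs_cast]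
    exact_mod_cast h2
  · rw [Nat.abs_cast]
    exact_mod_cast h4
  · omega

theorem algk : S_algk := by
  intro Γ _ W a b δ D hG u v κ κ' l l' h1 h2 h3 h4 huv hm
  obtain ⟨q, hq⟩ := Subgroup.mem_zpowers_iff.1 huv
  obtain ⟨t, ht⟩ := Subgroup.mem_zpowers_iff.1 hm
  have hv : v = u * a ^ q := by
    rw [hq]
    group
  by_contra hne
  have e1 : a ^ t = (b ^ κ)⁻¹ * (a ^ l)⁻¹ * a ^ q * a ^ l' * b ^ κ' := by
    rw [ht, hv]
    group
  have e3 : b ^ (κ' : ℤ) = a ^ (l - (q + l')) * b ^ (κ : ℤ) * a ^ t := by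
    rw [e1, zpow_natCast, zpow_natCast, zpow_sub, zpow_add]
    group
  refine hG.dc (κ' : ℤ) (κ : ℤ) (l - (q + l')) t ?_ ?_ ?_ e3
  · rw [Nat.abs_cast]
    exact_mod_cast h4
  · rw [Nat.abs_cast]
    exact_mod_cast h2
  · omega

end Pool.Agent.H30.QF.G17
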