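import Pool.Agent.H343.QF.StG

set_option autoImplicit false

/-! # MP_9a852a_al, G8: the lines of the blocks are distinct -/

namespace Pool.Agent.H30.QF.G8

open Pool.Agent.TH68 Pool.Agent.Helper97.Hyp Pool.Agent.H343.AN Pool.Agent.H343.QF

section

variable {Γ : Type} [Group Γ] {W : WNorm Γ} {a b : Γ} {δ D R : ℝ} {X : ℤ → Γ}
  {lam : ℤ → ℕ} {s : ℤ → Γ} {E Λ : ℕ}

theorem upos (H : Hyp5 W a b δ D R X lam s E Λ) : 3 ≤ D + R := by
  have h1 := H.good.one
  have h2 := H.good.le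
  have h3 := H.hR
  linarith

theorem far (h2 : S_cor2) (H : Hyp5 W a b δ D R X lam s E Λ) (i k : ℤ) (hik : i < k) :
    (E : ℝ) - 200 * (D + R) ≤ dist (pt W (X i)) (pt W (X k)) := by
  have h3 := (h2 H i k hik.le).1
  have hU := upos H
  have hE := H.hE
  have h4 : ((k - i : ℤ) : ℝ) * (E : ℝ) ≤ ∑ j ∈ Finset.Ico i k, (lam j : ℝ) := by
    have h5 : ∑ _j ∈ Finset.Ico i k, (E : ℝ) ≤ ∑ j ∈ Finset.Ico i k, (lam j : ℝ) := by
      apply Finset.sum_le_sum
      intro j _
      exact_mod_cast H.cor.lo j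
    rw [Finset.sum_const, nsmul_eq_mul, Int.card_Ico] at h5
    have h6 : (((k - i).toNat : ℕ) : ℝ) = ((k - i : ℤ) : ℝ) := by
      have : (((k - i).toNat : ℕ) : ℤ) = k - i := Int.toNat_of_nonneg (by omega)
      exact_mod_cast this
    rw [h6] at h5
    exact h5
  have h7 : (1 : ℝ) ≤ ((k - i : ℤ) : ℝ) := by
    have : (1 : ℤ) ≤ k - i := by omega
    exact_mod_cast this
  have h8 : (0 : ℝ) ≤ (E : ℝ) - 200 * (D + R) := by
    nlinarith
  push_cast at h4 h7
  nlinarith [mul_le_mul_of_nonneg_right h7 h8]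

theorem dl_lt (h1 : S_cor1) (h2 : S_cor2) (H : Hyp5 W a b δ D R X lam s E Λ) (j k : ℤ)
    (hjk : j < k) (h : (X j)⁻¹ * X k ∈ Subgroup.zpowers a) : False := by
  rcases eq_or_lt_of_le (show j + 1 ≤ k by omega) with he | hlt
  · rw [← he, H.cor.step j] at h
    apply H.cor.nm j
    have e : s j = (a ^ lam j)⁻¹ * ((X j)⁻¹ * (X j * a ^ lam j * s j)) := by group
    rw [e]
    exact Subgroup.mul_mem _ (Subgroup.inv_mem _ (Subgroup.pow_mem _ (Subgroup.mem_zpowers a) _)) h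
  · obtain ⟨t, ht⟩ := Subgroup.mem_zpowers_iff.1 h
    have hk : X j * a ^ t = X k := by
      rw [ht]
      group
    have h3 := (h1 H).2.1 j (j + 1) k t le_rfl hlt.le
    rw [hk] at h3
    unfold exc at h3
    rw [dist_self, dist_comm (pt W (X k)) (pt W (X (j + 1)))] at h3
    have h4 := far h2 H (j + 1) k hlt
    have hU := upos H
    have hE := H.hE
    nlinarith

end

theorem dl (h1 : S_cor1) (h2 : S_cor2) : S_dl := by
  intro Γ _ W a b δ D R X lam s E Λ H j k h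
  rcases lt_trichotomy j k with hlt | he | hgt
  · exact (dl_lt h1 h2 H j k hlt h).elim
  · exact he
  · exfalso
    apply dl_lt h1 h2 H k j hgt
    have e : (X k)⁻¹ * X j = ((X j)⁻¹ * X k)⁻¹ := by group
    rw [e]
    exact Subgroup.inv_mem _ h

end Pool.Agent.H30.QF.G8
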