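import Pool.Agent.H30.QF.G8

set_option autoImplicit false

/-! # MP_9a852a_al, G9: lines which are close are adjacent -/

namespace Pool.Agent.H30.QF.G9

open Pool.Agent.TH68 Pool.Agent.Helper97.Hyp Pool.Agent.H343.AN Pool.Agent.H343.QF
open Pool.Agent.H30.QF.G8

section

variable {Γ : Type} [Group Γ] {W : WNorm Γ} {a b : Γ} {δ D R : ℝ} {X : ℤ → Γ}
  {lam : ℤ → ℕ} {s : ℤ → Γ} {E Λ : ℕ}

theorem adj_le (h1 : S_cor1) (h2 : S_cor2) (H : Hyp5 W a b δ D R X lam s E Λ) (m k : ℤ) (u v : Γ)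
    (hu : (X m)⁻¹ * u ∈ Subgroup.zpowers a) (hv : (X k)⁻¹ * v ∈ Subgroup.zpowers a)
    (hd : dist (pt W u) (pt W v) ≤ 10 * (D + R)) : k ≤ m + 1 := by
  by_contra hc
  have hlt : m + 1 < k := by omega
  obtain ⟨t, ht⟩ := Subgroup.mem_zpowers_iff.1 hu
  obtain ⟨t', ht'⟩ := Subgroup.mem_zpowers_iff.1 hv
  have hu' : X m * a ^ t = u := by
    rw [ht]
    group
  have hv' : X k * a ^ t' = v := by
    rw [ht']
    group
  have h3 := (h1 H).2.2 m (m + 1) k t t' le_rfl hlt.le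
  have h4 := (h1 H).1 (m + 1) k k t' hlt.le le_rfl
  rw [hu', hv'] at h3
  rw [hv'] at h4
  unfold exc at h3 h4
  have h5 := far h2 H (m + 1) k hlt
  have hU := upos H
  have hE := H.hE
  have h6 : 0 ≤ dist (pt W u) (pt W (X (m + 1))) := dist_nonneg
  have h7 : 0 ≤ dist (pt W (X k)) (pt W v) := dist_nonneg
  nlinarith

end

theorem adj (h1 : S_cor1) (h2 : S_cor2) : S_adj := by
  intro Γ _ W a b δ D R X lam s E Λ H m k u v hu hv hd
  have e1 := adj_le h1 h2 H m k u v hu hv hd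
  have e2 := adj_le h1 h2 H k m v u hv hu (by rw [dist_comm]; exact hd)
  rw [abs_le]
  constructor <;> omega

end Pool.Agent.H30.QF.G9
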